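import Pool.Agent.H.MP_73c65d_al.Main

set_option autoImplicit false
open scoped commutatorElement

namespace Pool.Agent.Results.MP_73c65d_al.Q2

theorem result : ∃ p q r : ℕ, p.Prime ∧ q.Prime ∧ r.Prime ∧ p ≠ q ∧ p ≠ r ∧ q ≠ r ∧
    ∃ u ∈ commutator (FreeGroup (Fin 3)), u ≠ 1 ∧
      Set.Finite {n : ℕ | 3 ≤ n ∧ ∃ ξ η ζ : alternatingGroup (Fin n),
        Subgroup.closure {ξ, η, ζ} = ⊤ ∧ ξ ^ p = 1 ∧ η ^ q = 1 ∧ ζ ^ r = 1 ∧
        ξ * η * ζ * FreeGroup.lift ![ξ, η, ζ] u = 1} := by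
  refine ⟨2, 3, 5, Nat.prime_two, Nat.prime_three, Nat.prime_five, by decide, by decide, by decide,
    ⁅(FreeGroup.of 1 * FreeGroup.of 2 : FreeGroup (Fin 3))⁻¹, (FreeGroup.of 0)⁻¹⁆,
    Subgroup.commutator_mem_commutator (Subgroup.mem_top _) (Subgroup.mem_top _), by decide,
    (Set.finite_lt_nat 6).subset ?_⟩
  rintro n ⟨hn, ξ, η, ζ, h0, h1, h2, h3, h4⟩
  haveI : Nontrivial (Fin n) := Fin.nontrivial_iff_two_le.2 (by omega)
  have h5 : ζ = (ξ * η)⁻¹ := by
    simp only [commutatorElement_def, map_mul, map_inv, FreeGroup.lift_apply_of, inv_inv] at h4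
    have : η * ζ * ξ = 1 := by simpa [mul_assoc] using h4
    rw [eq_inv_iff_mul_eq_one, ← mul_assoc, ← mul_right_inj η, mul_one, ← mul_assoc,
      ← mul_assoc, this, one_mul]
  have h6 := Pool.Agent.H.MP_73c65d_al.card_le h1 h2 (by rwa [h5, inv_pow, inv_eq_one] at h3) (by
    rw [eq_top_iff, ← h0, Subgroup.closure_le]
    rintro x (rfl | rfl | rfl)
    · exact Subgroup.subset_closure (by simp)
    · exact Subgroup.subset_closure (by simp)
    · rw [h5]
      exact inv_mem (mul_mem (Subgroup.subset_closure (by simp)) (Subgroup.subset_closure (by simp))))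
  have h7 := two_mul_card_alternatingGroup (α := Fin n)
  rw [Fintype.card_perm, Fintype.card_fin] at h7
  by_contra h
  have : Nat.factorial 6 ≤ n.factorial := Nat.factorial_le (by simpa using h)
  have h8 : Nat.factorial 6 = 720 := rfl
  omega

end Pool.Agent.Results.MP_73c65d_al.Q2
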